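import Pool.Agent.Y223.G.Stm3

/-!
# The base is covered by open subsets with at most one ramified prime
-/

set_option autoImplicit false
set_option linter.overlappingInstances false
set_option linter.unusedSectionVars false

namespace Pool.Agent.Y983.G

open Pool.Agent.Y223.G

section

variable {k O K : Type} [CommRing k] [IsDomain k] [CommRing O] [IsDomain O]
  [IsDedekindDomain O] [Field K] [Algebra k O] [Algebra O K] [Algebra k K] [IsScalarTower k O K]

/-- The map to the localization. -/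
noncomputable def iO (s : k) : O →+* OL O (K := K) s :=
  (algebraMap O K).codRestrict (OL O (K := K) s) (fun y => ⟨0, y, by rw [pow_zero, one_mul]⟩)

lemma iO_coe (s : k) (y : O) : (iO (K := K) s y : K) = algebraMap O K y := rfl

lemma iO_alg (s c : k) :
    iO (O := O) (K := K) s (algebraMap k O c) = algebraMap k (OL O (K := K) s) c :=
  Subtype.ext (IsScalarTower.algebraMap_apply k O K c).symm

variable {p : ℕ} {τ : K ≃ₐ[k] K} {t : O ≃ₐ[k] O}

lemma ne_K (h : GSet k O K p τ t) {s : k} (hs : s ≠ 0) : algebraMap k K s ≠ 0 := fun e =>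
  hs (h.injk (by rw [e, map_zero]))

lemma ne_O (h : GSet k O K p τ t) {s : k} (hs : s ≠ 0) : algebraMap k O s ≠ 0 := fun e =>
  ne_K h hs (by rw [IsScalarTower.algebraMap_apply k O K, e, map_zero])

lemma tau_mem (h : GSet k O K p τ t) {s : k} {x : K} (hx : x ∈ OL O (K := K) s) :
    τ x ∈ OL O (K := K) s := by
  obtain ⟨n, y, hy⟩ := hx
  refine ⟨n, t y, ?_⟩
  rw [← h.com, ← hy, map_mul, map_pow, AlgEquiv.commutes]

lemma tau_symm_mem (h : GSet k O K p τ t) {s : k} {x : K} (hx : x ∈ OL O (K := K) s) :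
    τ.symm x ∈ OL O (K := K) s := by
  obtain ⟨n, y, hy⟩ := hx
  refine ⟨n, t.symm y, ?_⟩
  apply τ.injective
  rw [h.com, map_mul, map_pow, AlgEquiv.commutes, AlgEquiv.apply_symm_apply,
    AlgEquiv.apply_symm_apply, hy]

/-- The automorphism of the localization. -/
noncomputable def tb (h : GSet k O K p τ t) (s : k) :
    OL O (K := K) s ≃ₐ[k] OL O (K := K) s :=
  AlgEquiv.ofAlgHom
    ((τ.toAlgHom.comp (OL O (K := K) s).val).codRestrict (OL O (K := K) s)
      (fun x => tau_mem h x.2))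
    ((τ.symm.toAlgHom.comp (OL O (K := K) s).val).codRestrict (OL O (K := K) s)
      (fun x => tau_symm_mem h x.2))
    (by
      ext x
      exact τ.apply_symm_apply x)
    (by
      ext x
      exact τ.symm_apply_apply x)

lemma tb_coe (h : GSet k O K p τ t) (s : k) (x : OL O (K := K) s) :
    (tb h s x : K) = τ x := rfl

lemma tb_iO (h : GSet k O K p τ t) (s : k) (y : O) : tb h s (iO s y) = iO s (t y) :=
  Subtype.ext (by rw [tb_coe, iO_coe, iO_coe, h.com])

/-- Elements of the extension of an ideal. -/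
lemma mem_ext {s : k} {I : Ideal O} {x : OL O (K := K) s} {n : ℕ} {y : O}
    (hs : algebraMap k K s ≠ 0) (hx : algebraMap k K s ^ n * (x : K) = algebraMap O K y)
    (hy : y ∈ I) : x ∈ I.map (iO (K := K) s) := by
  have h1 : (algebraMap k K s)⁻¹ ∈ OL O (K := K) s := ⟨1, 1, by
    rw [pow_one, mul_inv_cancel₀ hs, map_one]⟩
  have h2 : x = (⟨_, h1⟩ : OL O (K := K) s) ^ n * iO s y := by
    apply Subtype.ext
    push_cast
    rw [iO_coe, ← hx, ← mul_assoc, ← mul_pow, inv_mul_cancel₀ hs, one_pow, one_mul]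
  rw [h2]
  exact Ideal.mul_mem_left _ _ (Ideal.mem_map_of_mem _ hy)

/-- **The localization.** -/
theorem loc (h : GSet k O K p τ t) {s : k} (hs : s ≠ 0) {P : Ideal O} {l : ℕ}
    (hmx : P.IsMaximal ∨ P = ⊤) (hne : P ≠ ⊥) (hdv : ∀ o, t o - o ∈ P ^ (l + 1))
    (hun : P ≠ ⊤ → ∃ π ∈ P, t π - π ∉ P ^ (l + 2)) (hpl : (p : O) ∈ P ^ ((p - 1) * l))
    (hp0 : l = 0 → P ≠ ⊤ → (p : O) ∉ P) (hsP : P ≠ ⊤ → algebraMap k O s ∉ P)
    (hrm : ∀ 𝔮 : Ideal O, 𝔮.IsPrime → 𝔮 ≠ ⊥ → (∀ o, t o - o ∈ 𝔮) →
      𝔮 = P ∨ algebraMap k O s ∈ 𝔮) :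
    ∃ _ : IsDedekindDomain (OL O (K := K) s),
      WSet k (OL O (K := K) s) K p τ (tb h s) (P.map (iO (K := K) s)) l := by
  have hsK := ne_K h hs
  have hsO := ne_O h hs
  let _ : Algebra O (OL O (K := K) s) := (iO (K := K) s).toAlgebra
  have hmap : algebraMap O (OL O (K := K) s) = iO s := rfl
  have hT : IsScalarTower k O (OL O (K := K) s) :=
    IsScalarTower.of_algebraMap_eq fun x => (iO_alg s x).symm
  have hu : IsUnit (iO (K := K) s (algebraMap k O s)) := by
    have h1 : (algebraMap k K s)⁻¹ ∈ OL O (K := K) s := ⟨1, 1, by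
      rw [pow_one, mul_inv_cancel₀ hsK, map_one]⟩
    refine IsUnit.of_mul_eq_one ⟨_, h1⟩ ?_
    apply Subtype.ext
    push_cast
    rw [iO_coe, ← IsScalarTower.algebraMap_apply k O K, mul_inv_cancel₀ hsK]
  have hLoc : IsLocalization (Submonoid.powers (algebraMap k O s)) (OL O (K := K) s) := by
    rw [isLocalization_iff]
    refine ⟨?_, ?_, ?_⟩
    · rintro ⟨_, n, rfl⟩
      rw [hmap, map_pow]
      exact hu.pow n
    · rintro ⟨x, n, y, hy⟩
      refine ⟨⟨y, ⟨_, n, rfl⟩⟩, ?_⟩
      apply Subtype.ext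
      change x * algebraMap O K (algebraMap k O s ^ n) = algebraMap O K y
      rw [map_pow, ← IsScalarTower.algebraMap_apply k O K, mul_comm]
      exact hy
    · intro x y hxy
      refine ⟨1, ?_⟩
      have h2 := congrArg (Subtype.val) hxy
      rw [hmap, iO_coe, iO_coe] at h2
      rw [h.inj h2]
  have hle : Submonoid.powers (algebraMap k O s) ≤ nonZeroDivisors O :=
    powers_le_nonZeroDivisors_of_noZeroDivisors hsO
  have hD : IsDedekindDomain (OL O (K := K) s) := IsLocalization.isDedekindDomain O hle _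
  have hfin := h.fin
  have hft1 : Algebra.FiniteType O (OL O (K := K) s) :=
    IsLocalization.finiteType_of_monoid_fg (Submonoid.powers (algebraMap k O s)) _
  have hft2 : Algebra.FiniteType k O := inferInstance
  -- contraction of the powers
  have hcon : P ≠ ⊤ → ∀ (n : ℕ) (y : O), iO (K := K) s y ∈ (P.map (iO (K := K) s)) ^ n →
      y ∈ P ^ n := by
    intro hP n y hy
    have hPm : P.IsMaximal := hmx.resolve_right hP
    rw [← Ideal.map_pow, ← hmap,
      IsLocalization.algebraMap_mem_map_algebraMap_iff (Submonoid.powers (algebraMap k O s))] at hy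
    obtain ⟨_, ⟨j, rfl⟩, hj⟩ := hy
    have hPp : P.IsPrime := hPm.isPrime
    rcases Ideal.IsPrime.mul_mem_pow P hj with h1 | h1
    · exact absurd (hPp.mem_of_pow_mem j h1) (hsP hP)
    · exact h1
  have hmne : P.map (iO (K := K) s) ≠ ⊥ := by
    obtain ⟨x, hx, hx0⟩ := Submodule.exists_mem_ne_zero_of_ne_bot hne
    intro hb
    have h1 : iO (K := K) s x ∈ P.map (iO (K := K) s) := Ideal.mem_map_of_mem _ hx
    rw [hb, Ideal.mem_bot] at h1
    have h2 := congrArg Subtype.val h1
    rw [iO_coe] at h2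
    exact hx0 (h.inj (by rw [map_zero]; exact h2))
  have htop : P = ⊤ → P.map (iO (K := K) s) = ⊤ := fun e => by rw [e, Ideal.map_top]
  have hpr : P ≠ ⊤ → (P.map (iO (K := K) s)).IsPrime := by
    intro hP
    have hPm : P.IsMaximal := hmx.resolve_right hP
    rw [← hmap]
    refine IsLocalization.isPrime_of_isPrime_disjoint (Submonoid.powers (algebraMap k O s)) _ P
      hPm.isPrime ?_
    rw [Set.disjoint_left]
    rintro _ ⟨j, rfl⟩ hj
    exact hsP hP (hPm.isPrime.mem_of_pow_mem j hj)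
  refine ⟨hD, ?_⟩
  constructor
  · exact h.pp
  · exact Algebra.FiniteType.trans hft2 hft1
  · exact Subtype.val_injective
  · exact h.ord
  · exact fun o => rfl
  · exact hmne
  · by_cases hP : P = ⊤
    · exact Or.inr (htop hP)
    · exact Or.inl ((hpr hP).isMaximal hmne)
  · rintro ⟨x, n, y, hy⟩
    rw [← Ideal.map_pow]
    refine mem_ext (n := n) (y := t y - y) hsK ?_ (hdv y)
    change algebraMap k K s ^ n * (τ x - x) = algebraMap O K (t y - y)
    rw [map_sub, ← h.com, ← hy, map_mul, map_pow, AlgEquiv.commutes, mul_sub]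
  · intro hP
    have hP' : P ≠ ⊤ := fun e => hP (htop e)
    obtain ⟨π, hπ, hπ2⟩ := hun hP'
    refine ⟨iO s π, Ideal.mem_map_of_mem _ hπ, fun hc => hπ2 ?_⟩
    rw [tb_iO, ← map_sub] at hc
    exact hcon hP' _ _ hc
  · intro 𝔮 hq hqP
    by_contra hcon2
    push Not at hcon2
    have hq0 : ∀ o, t o - o ∈ 𝔮.comap (iO (K := K) s) := by
      intro o
      rw [Ideal.mem_comap, map_sub, ← tb_iO h]
      exact hcon2 _
    have hqp : (𝔮.comap (iO (K := K) s)).IsPrime := Ideal.comap_isPrime _ _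
    have hqb : 𝔮.comap (iO (K := K) s) ≠ ⊥ := by
      obtain ⟨o, ho⟩ := h.nt
      intro hb
      have h1 := hq0 o
      rw [hb, Ideal.mem_bot, sub_eq_zero] at h1
      exact ho h1
    rcases hrm _ hqp hqb hq0 with h1 | h1
    · apply hqP
      rw [← h1]
      exact (IsLocalization.map_under (Submonoid.powers (algebraMap k O s)) _ 𝔮).symm
    · exact hq.ne_top (Ideal.eq_top_of_isUnit_mem _ h1 hu)
  · rw [← Ideal.map_pow]
    have h1 : ((p : ℕ) : OL O (K := K) s) = iO s (p : O) := by rw [map_natCast]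
    rw [h1]
    exact Ideal.mem_map_of_mem _ hpl
  · intro hl hP hc
    have hP' : P ≠ ⊤ := fun e => hP (htop e)
    refine hp0 hl hP' ?_
    have h1 : ((p : ℕ) : OL O (K := K) s) = iO s (p : O) := by rw [map_natCast]
    rw [h1] at hc
    have h2 := hcon hP' 1 (p : O) (by rwa [pow_one])
    rwa [pow_one] at h2

/-- `t` has the order `p`. -/
lemma t_ord (h : GSet k O K p τ t) (x : O) : t^[p] x = x := by
  apply h.inj
  have h1 : ∀ n : ℕ, algebraMap O K (t^[n] x) = τ^[n] (algebraMap O K x) := by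
    intro n
    induction n with
    | zero => rfl
    | succ n ih => rw [Function.iterate_succ_apply', Function.iterate_succ_apply', ← h.com, ih]
  rw [h1, h.ord]

/-- Iterates of `t` modulo a ramified prime. -/
lemma t_iter {P : Ideal O} (hP : ∀ o, t o - o ∈ P) (x : O) (n : ℕ) : t^[n] x - x ∈ P := by
  induction n with
  | zero => simp
  | succ n ih =>
    rw [Function.iterate_succ_apply']
    have h1 : t (t^[n] x) - x = (t (t^[n] x) - t^[n] x) + (t^[n] x - x) := by ring
    rw [h1]
    exact P.add_mem (hP _) ih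

/-- Ramified primes over the same prime are equal. -/
lemma ram_inj (h : GSet k O K p τ t) {P Q : Ideal O} (hP : P.IsMaximal) (hQ : Q.IsMaximal)
    (hPt : ∀ o, t o - o ∈ P) (e : P.comap (algebraMap k O) = Q.comap (algebraMap k O)) :
    P = Q := by
  symm
  apply hQ.eq_of_le hP.ne_top
  intro x hx
  have hp := h.pp.pos
  have hN : t (∏ i ∈ Finset.range p, t^[i] x) = ∏ i ∈ Finset.range p, t^[i] x := by
    rw [map_prod]
    have h1 : ∀ i ∈ Finset.range p, t (t^[i] x) = t^[i + 1] x := fun i _ => by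
      rw [Function.iterate_succ_apply']
    rw [Finset.prod_congr rfl h1]
    obtain ⟨q, hq⟩ : ∃ q, p = q + 1 := ⟨p - 1, by omega⟩
    have h2 := t_ord h x
    rw [hq] at h2 ⊢
    rw [Finset.prod_range_succ, Finset.prod_range_succ' (fun i => t^[i] x), h2]
    rfl
  obtain ⟨c, hc⟩ := h.fix _ hN
  have h2 : c ∈ Q.comap (algebraMap k O) := by
    rw [Ideal.mem_comap, hc]
    have h0 : (fun i => t^[i] x) 0 ∈ Q := hx
    rw [← Finset.mul_prod_erase (Finset.range p) (fun i => t^[i] x) (Finset.mem_range.2 hp)]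
    exact Q.mul_mem_right _ h0
  rw [← e, Ideal.mem_comap, hc] at h2
  have hPp : P.IsPrime := hP.isPrime
  obtain ⟨i, _, hi⟩ := (Ideal.IsPrime.prod_mem_iff).1 h2
  have h3 := P.sub_mem hi (t_iter hPt x i)
  have h4 : t^[i] x - (t^[i] x - x) = x := by ring
  rwa [h4] at h3

end

/-- **The base is covered by open subsets with at most one ramified prime.** -/
theorem t_RAM : S_RAM1 → S_RAM := by
  intro hR k O K _ _ _ _ _ _ _ _ _ _ p τ t h
  classical
  let S : Set (Ideal O) := {P | P.IsMaximal ∧ P ≠ ⊥ ∧ ∀ o, t o - o ∈ P}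
  have hSfin : S.Finite := by
    obtain ⟨o, ho⟩ := h.nt
    have hne : Ideal.span {t o - o} ≠ (0 : Ideal O) := by
      rw [Ideal.zero_eq_bot, Ne, Ideal.span_singleton_eq_bot, sub_eq_zero]
      exact ho
    have h1 := Ideal.finite_factors hne
    refine (h1.image fun v => v.asIdeal).subset ?_
    rintro P ⟨hP, hP0, hPt⟩
    refine ⟨⟨P, hP.isPrime, hP0⟩, ?_, rfl⟩
    change P ∣ _
    rw [Ideal.dvd_span_singleton]
    exact hPt o
  by_cases hemp : S = ∅
  · -- no ramified primes
    refine ⟨Unit, inferInstance, inferInstance, fun _ => 1, fun _ => one_ne_zero, ?_, ?_⟩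
    · rw [Set.range_const, Ideal.span_singleton_one]
    · intro b
      obtain ⟨hD, hW⟩ := loc h (s := 1) one_ne_zero (P := ⊤) (l := 0) (Or.inr rfl) top_ne_bot
        (fun o => by rw [Ideal.top_pow]; trivial) (fun e => absurd rfl e)
        (by rw [Ideal.top_pow]; trivial) (fun _ e => absurd rfl e) (fun e => absurd rfl e)
        (fun 𝔮 hq hq0 hqt => by
          exfalso
          have h1 : 𝔮 ∈ S := ⟨hq.isMaximal hq0, hq0, hqt⟩
          rw [hemp] at h1
          exact h1)
      exact ⟨hD, _, _, _, hW, fun b' hb' => absurd rfl hb'⟩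
  · have hfS : Finite S := hSfin.to_subtype
    have hnS : Nonempty S := (Set.nonempty_iff_ne_empty.2 hemp).to_subtype
    have := Fintype.ofFinite S
    have hfin := h.fin
    have hint : Algebra.IsIntegral k O := inferInstance
    let q : S → Ideal k := fun b => b.1.comap (algebraMap k O)
    have hqm : ∀ b, (q b).IsMaximal := fun b => by
      have := b.2.1
      exact Ideal.isMaximal_comap_of_isIntegral_of_isMaximal b.1
    have hqinj : ∀ b b', b ≠ b' → q b ≠ q b' := fun b b' hne e =>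
      hne (Subtype.ext (ram_inj h b.2.1 b'.2.1 b.2.2.2 e))
    have hco : ((Finset.univ : Finset S) : Set S).Pairwise fun i j => q i ⊔ q j = ⊤ :=
      fun i _ j _ hij => (hqm i).coprime_of_ne (hqm j) (hqinj i j hij)
    have h1 := (Ideal.iSup_iInf_eq_top_iff_pairwise Finset.univ_nonempty q).2 hco
    rw [Ideal.eq_top_iff_one, Submodule.mem_iSup_finset_iff_exists_sum] at h1
    obtain ⟨μ, hμ⟩ := h1
    have hμm : ∀ b b', b' ≠ b → (μ b' : k) ∈ q b := by
      intro b b' hb
      have h2 := (μ b').2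
      simp only [Submodule.mem_iInf] at h2
      exact h2 b (Finset.mem_univ b) hb.symm
    have hμn : ∀ b, (μ b : k) ∉ q b := by
      intro b hb
      refine (hqm b).ne_top ((Ideal.eq_top_iff_one _).2 ?_)
      rw [← hμ]
      refine Ideal.sum_mem _ fun b' _ => ?_
      by_cases e : b' = b
      · rw [e]
        exact hb
      · exact hμm b b' e
    refine ⟨S, hfS, hnS, fun b => (μ b : k), fun b e => hμn b (by
      have e' : (μ b : k) = 0 := e
      rw [e']
      exact (q b).zero_mem), ?_, ?_⟩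
    · rw [Ideal.eq_top_iff_one, ← hμ]
      exact Ideal.sum_mem _ fun b _ => Ideal.subset_span ⟨b, rfl⟩
    · intro b
      obtain ⟨l, hl1, hl2, hl3, hl4⟩ := hR k O K p τ t h b.1 b.2.1 b.2.2.1 b.2.2.2
      have hb0 : (μ b : k) ≠ 0 := fun e => hμn b (by
        rw [e]
        exact (q b).zero_mem)
      obtain ⟨hD, hW⟩ := loc h (s := (μ b : k)) hb0 (P := b.1) (l := l) (Or.inl b.2.1) b.2.2.1
        hl1 (fun _ => hl2) hl3 (fun e _ => hl4 e) (fun _ => hμn b)
        (fun 𝔮 hq hq0 hqt => by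
          have h2 : 𝔮 ∈ S := ⟨hq.isMaximal hq0, hq0, hqt⟩
          by_cases e : (⟨𝔮, h2⟩ : S) = b
          · left
            rw [← e]
          · right
            exact hμm ⟨𝔮, h2⟩ b (Ne.symm e))
      refine ⟨hD, _, _, _, hW, fun b' hb' => ?_⟩
      have h3 : algebraMap k O (μ b' : k) ∈ b.1 := hμm b b' hb'
      rw [← iO_alg]
      exact Ideal.mem_map_of_mem _ h3

end Pool.Agent.Y983.G

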